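import Pool.Agent.Helper10_MWLQ.PRC
import Pool.Agent.Helper12_MWLQ.TLD
import Pool.Agent.Helper13_MWLE.TEX
import Pool.Agent.Helper14_MWGN.PRF
import Pool.Agent.Helper14_MWLQ.VVD
import Pool.Agent.Helper15_MWGN.DST
import Pool.Agent.Helper15_MWLQ.LEV
import Pool.Agent.Helper15_MWLQ.TNF
import Pool.Agent.Helper16_MWGN.STX
import Pool.Agent.Helper16_MWLQ.TLQ
import Pool.Agent.Helper19_MWGN.MCV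
import Pool.Agent.Helper19_MWGQ.CLF
import Pool.Agent.Helper19_MWGQ.DPE
import Pool.Agent.Helper19_MWGQ.KPR
import Pool.Agent.Helper19_MWGQ.VEQ
import Pool.Agent.Helper19_MWLQ.RGC
import Pool.Agent.Helper1_MWGQ.SA2
import Pool.Agent.Helper1_MWLQ.YPR
import Pool.Agent.Helper22_MWGQ.FAA
import Pool.Agent.Helper22_MWGQ.PWX
import Pool.Agent.Helper23_MWGQ.CNT
import Pool.Agent.Helper23_MWLQ.NMN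
import Pool.Agent.Helper25_MWGQ.MC3
import Pool.Agent.Helper25_MWLQ.BLK
import Pool.Agent.Helper26_MWGN.MPO
import Pool.Agent.Helper26_MWGN.RUN
import Pool.Agent.Helper27_MWGN.INC
import Pool.Agent.Helper27_MWGQ.ITA
import Pool.Agent.Helper27_MWLQ.DDC
import Pool.Agent.Helper27_MWLQ.RGY
import Pool.Agent.Helper2_MWGN.STR
import Pool.Agent.Helper2_MWGQ.NOG
import Pool.Agent.Helper2_MWLQ.AIO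
import Pool.Agent.Helper30_MWLQ.I2R
import Pool.Agent.Helper30_MWLQ.WXY
import Pool.Agent.Helper32_MWGQ.SA1
import Pool.Agent.Helper32_MWLQ.RGZ
import Pool.Agent.Helper34_MWGN.NOA
import Pool.Agent.Helper34_MWGQ.MC1
import Pool.Agent.Helper34_MWLQ.CVA
import Pool.Agent.Helper35_MWLQ.GDA
import Pool.Agent.Helper36_MWLQ.XFS
import Pool.Agent.Helper37_MWGQ.TLR
import Pool.Agent.Helper37_MWGQ.WCV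
import Pool.Agent.Helper39_MWGN.TLF
import Pool.Agent.Helper39_MWLE.SIG
import Pool.Agent.Helper39_MWLQ.RGX
import Pool.Agent.Helper3_MWGN.KFI
import Pool.Agent.Helper43_MWGQ.RNF
import Pool.Agent.Helper43_MWLQ.FSF
import Pool.Agent.Helper43_MWLQ.KFB
import Pool.Agent.Helper44_MWGQ.KAR
import Pool.Agent.Helper44_MWGQ.VCL
import Pool.Agent.Helper45_MWGN.NOF
import Pool.Agent.Helper45_MWGQ.NRF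
import Pool.Agent.Helper45_MWLE.TFW
import Pool.Agent.Helper45_MWLQ.CLC
import Pool.Agent.Helper46_MWGN.MCF
import Pool.Agent.Helper47_MWGQ.CLO
import Pool.Agent.Helper47_MWGQ.FOF
import Pool.Agent.Helper47_MWLQ.GDC
import Pool.Agent.Helper49_MWLQ.CLB
import Pool.Agent.Helper4_MWGN.ORD
import Pool.Agent.Helper4_MWGN.SRT
import Pool.Agent.Helper50_MWLQ.FAC
import Pool.Agent.Helper51_MWGN.INP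
import Pool.Agent.Helper51_MWGQ.FFR
import Pool.Agent.Helper52_MWGQ.PEF
import Pool.Agent.Helper52_MWLQ.LER
import Pool.Agent.Helper53_MWLQ.ORD
import Pool.Agent.Helper54_MWGN.GLX
import Pool.Agent.Helper58_MWGQ.CLS
import Pool.Agent.Helper59_MWGN.SPX
import Pool.Agent.Helper5_MWGP.GAP
import Pool.Agent.Helper5_MWGQ.NOR
import Pool.Agent.Helper60_MWGN.DSR
import Pool.Agent.Helper60_MWLQ.GFA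
import Pool.Agent.Helper62_MWGQ.MC2
import Pool.Agent.Helper62_MWLQ.BTS
import Pool.Agent.Helper62_MWLQ.PEN
import Pool.Agent.Helper64_MWGQ.FAP
import Pool.Agent.Helper64_MWLQ.GFB
import Pool.Agent.Helper66_MWGN.TWT
import Pool.Agent.Helper67_MWGN.MPF
import Pool.Agent.Helper69_MWGQ.CMW
import Pool.Agent.Helper6_MWGQ.OLR
import Pool.Agent.Helper73_MWLQ.CPX
import Pool.Agent.Helper73_MWLQ.PST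
import Pool.Agent.Helper74_MWGQ.EXP
import Pool.Agent.Helper75_MWGQ.GND
import Pool.Agent.Helper75_MWGQ.VCF
import Pool.Agent.Helper75_MWLE.SPZ
import Pool.Agent.Helper75_MWLQ.ITD
import Pool.Agent.Helper76_MWLQ.LEF
import Pool.Agent.Helper77_MWGN.STY
import Pool.Agent.Helper77_MWLQ.WFC
import Pool.Agent.Helper7_MWGN.GLS
import Pool.Agent.Helper80_MWGQ.PRB
import Pool.Agent.Helper80_MWLQ.ALE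
import Pool.Agent.Helper81_MWGN.HZE
import Pool.Agent.Helper81_MWGQ.NOB
import Pool.Agent.Helper86_MWGQ.FOR
import Pool.Agent.Helper86_MWLQ.CPY
import Pool.Agent.Helper88_MWGQ.SAF
import Pool.Agent.Helper88_MWLQ.RIG
import Pool.Agent.Helper89_MWGQ.REN
import Pool.Agent.Helper89_MWLQ.TWC
import Pool.Agent.Helper92_MWGQ.SPV
import Pool.Agent.Helper92_MWLQ.CVB
import Pool.Agent.Helper94_MWGN.WCX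
import Pool.Agent.Helper95_MWGQ.FSP
import Pool.Agent.Helper95_MWGQ.TLW
import Pool.Agent.Helper95_MWLQ.GDB
import Pool.Agent.Helper95_MWLQ.TCR
import Pool.Agent.Helper98_MWLQ.DQS

/-!
# MP_23468a_al: composition of the rows (generated)
-/

namespace Pool.Agent.MWLQ.Comp

theorem c_MWGQ_Exp : Pool.Agent.MWGQ.ExpStmt :=
  Pool.Agent.MWGQ.H74.exp 
theorem c_MWGQ_Gnd : Pool.Agent.MWGQ.GndStmt :=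
  Pool.Agent.MWGQ.H75.gnd c_MWGQ_Exp
theorem c_MWLQ_Prc : Pool.Agent.MWLQ.PrcStmt :=
  Pool.Agent.MWLQ.H10.prc 
theorem c_MWLQ_Wfc : Pool.Agent.MWLQ.WfcStmt :=
  Pool.Agent.MWLQ.H77.wfc c_MWLQ_Prc
theorem c_MWLQ_Wxy : Pool.Agent.MWLQ.WxyStmt :=
  Pool.Agent.MWLQ.H30.wxy c_MWLQ_Prc
theorem c_MWLQ_Pst : Pool.Agent.MWLQ.PstStmt :=
  Pool.Agent.MWLQ.H73.pst 
theorem c_MWGQ_Pwx : Pool.Agent.MWGQ.PwxStmt :=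
  Pool.Agent.MWGQ.H22.pwx 
theorem c_MWGQ_Cnt : Pool.Agent.MWGQ.CntStmt :=
  Pool.Agent.MWGQ.H23.cnt 
theorem c_MWGQ_Cls : Pool.Agent.MWGQ.ClsStmt :=
  Pool.Agent.MWGQ.H58.cls c_MWGQ_Pwx
theorem c_MWGQ_Olr : Pool.Agent.MWGQ.OlrStmt :=
  Pool.Agent.MWGQ.H6.olr c_MWGQ_Cls c_MWGQ_Cnt
theorem c_MWLQ_Ord : Pool.Agent.MWLQ.OrdStmt :=
  Pool.Agent.MWLQ.H53.ord c_MWGQ_Pwx c_MWGQ_Cnt c_MWGQ_Olr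
theorem c_MWLQ_Fac : Pool.Agent.MWLQ.FacStmt :=
  Pool.Agent.MWLQ.H50.fac c_MWLQ_Wfc c_MWLQ_Wxy c_MWLQ_Pst c_MWLQ_Ord c_MWGQ_Olr c_MWGQ_Cnt
theorem c_MWGQ_Tlw : Pool.Agent.MWGQ.TlwStmt :=
  Pool.Agent.MWGQ.H95.tlw c_MWGQ_Pwx c_MWGQ_Cnt
theorem c_MWGQ_Tlr : Pool.Agent.MWGQ.TlrStmt :=
  Pool.Agent.MWGQ.H37.tlr c_MWGQ_Olr c_MWGQ_Tlw c_MWGQ_Cnt
theorem c_MWLQ_Tld : Pool.Agent.MWLQ.TldStmt :=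
  Pool.Agent.MWLQ.H12.tld c_MWGQ_Pwx c_MWGQ_Cnt c_MWGQ_Tlw
theorem c_MWLQ_Tlq : Pool.Agent.MWLQ.TlqStmt :=
  Pool.Agent.MWLQ.H16.tlq c_MWLQ_Tld c_MWGQ_Olr c_MWGQ_Cnt
theorem c_MWLQ_Dqs : Pool.Agent.MWLQ.DqsStmt :=
  Pool.Agent.MWLQ.H98.dqs c_MWGQ_Pwx
theorem c_MWLQ_Xfs : Pool.Agent.MWLQ.XfsStmt :=
  Pool.Agent.MWLQ.H36.xfs c_MWLQ_Wxy c_MWLQ_Pst c_MWLQ_Fac c_MWGQ_Olr c_MWGQ_Tlr c_MWGQ_Cnt c_MWLQ_Tlq c_MWLQ_Dqs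
theorem c_MWLQ_Ddc : Pool.Agent.MWLQ.DdcStmt :=
  Pool.Agent.MWLQ.H27.ddc c_MWGQ_Pwx
theorem c_MWLQ_Ler : Pool.Agent.MWLQ.LerStmt :=
  Pool.Agent.MWLQ.H52.ler c_MWGQ_Pwx
theorem c_MWLQ_Rig : Pool.Agent.MWLQ.RigStmt :=
  Pool.Agent.MWLQ.H88.rig c_MWGQ_Pwx c_MWLQ_Ddc c_MWLQ_Ler
theorem c_MWLQ_Cpx : Pool.Agent.MWLQ.CpxStmt :=
  Pool.Agent.MWLQ.H73X.cpx 
theorem c_MWLQ_Rgx : Pool.Agent.MWLQ.RgxStmt :=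
  Pool.Agent.MWLQ.H39.rgx c_MWLQ_Rig c_MWLQ_Cpx c_MWLQ_Pst
theorem c_MWLQ_Cpy : Pool.Agent.MWLQ.CpyStmt :=
  Pool.Agent.MWLQ.H86.cpy 
theorem c_MWLQ_Rgy : Pool.Agent.MWLQ.RgyStmt :=
  Pool.Agent.MWLQ.H27R.rgy c_MWLQ_Rig c_MWLQ_Cpy c_MWLQ_Pst
theorem c_MWLE_Spz : Pool.Agent.MWLE.SpzStmt :=
  Pool.Agent.MWLE.H75.spz 
theorem c_MWGN_Srt : Pool.Agent.MWGN.SrtStmt :=
  Pool.Agent.MWGN.H4.srt 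
theorem c_MWLQ_Tnf : Pool.Agent.MWLQ.TnfStmt :=
  Pool.Agent.MWLQ.H15.tnf c_MWGQ_Pwx c_MWGN_Srt
theorem c_MWLQ_Rgc : Pool.Agent.MWLQ.RgcStmt :=
  Pool.Agent.MWLQ.H19.rgc c_MWGQ_Pwx c_MWLQ_Ddc
theorem c_MWLQ_Rgz : Pool.Agent.MWLQ.RgzStmt :=
  Pool.Agent.MWLQ.H32.rgz c_MWLE_Spz c_MWLQ_Tnf c_MWLQ_Rgc c_MWLQ_Cpy c_MWLQ_Pst c_MWLQ_Xfs c_MWLQ_Fac c_MWLQ_Ler c_MWLQ_Dqs
theorem c_MWLQ_Lev : Pool.Agent.MWLQ.LevStmt :=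
  Pool.Agent.MWLQ.H15.lev c_MWGQ_Pwx
theorem c_MWLQ_Kfb : Pool.Agent.MWLQ.KfbStmt :=
  Pool.Agent.MWLQ.H43.kfb c_MWLQ_Fac c_MWLQ_Xfs c_MWLQ_Rgx c_MWLQ_Rgy c_MWLQ_Rgz c_MWLQ_Lev c_MWLQ_Ler
theorem c_MWLQ_Twc : Pool.Agent.MWLQ.TwcStmt :=
  Pool.Agent.MWLQ.H89T.twc 
theorem c_MWLQ_Blk : Pool.Agent.MWLQ.BlkStmt :=
  Pool.Agent.MWLQ.H25.blk c_MWLQ_Twc
theorem c_MWLQ_Tcr : Pool.Agent.MWLQ.TcrStmt :=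
  Pool.Agent.MWLQ.H95.tcr c_MWLQ_Twc c_MWLQ_Blk
theorem c_MWLQ_Gfa : Pool.Agent.MWLQ.GfaStmt :=
  Pool.Agent.MWLQ.H60.gfa 
theorem c_MWLQ_Cva : Pool.Agent.MWLQ.CvaStmt :=
  Pool.Agent.MWLQ.H34.cva c_MWLQ_Twc c_MWLQ_Blk c_MWLQ_Tcr c_MWLQ_Gfa
theorem c_MWLQ_Gdb : Pool.Agent.MWLQ.GdbStmt :=
  Pool.Agent.MWLQ.H95.gdb c_MWLQ_Twc c_MWLQ_Blk c_MWLQ_Cva c_MWLQ_Tcr
theorem c_MWLQ_Gfb : Pool.Agent.MWLQ.GfbStmt :=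
  Pool.Agent.MWLQ.H64.gfb 
theorem c_MWLQ_Cvb : Pool.Agent.MWLQ.CvbStmt :=
  Pool.Agent.MWLQ.H92.cvb c_MWLQ_Tcr c_MWLQ_Gfb
theorem c_MWLQ_Gdc : Pool.Agent.MWLQ.GdcStmt :=
  Pool.Agent.MWLQ.H47.gdc c_MWLQ_Twc c_MWLQ_Blk c_MWLQ_Cvb c_MWLQ_Tcr
theorem c_MWLQ_Ypr : Pool.Agent.MWLQ.YprStmt :=
  Pool.Agent.MWLQ.H1.ypr c_MWLQ_Twc c_MWLQ_Blk
theorem c_MWLQ_Gda : Pool.Agent.MWLQ.GdaStmt :=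
  Pool.Agent.MWLQ.H35.gda c_MWLQ_Twc c_MWLQ_Blk c_MWLQ_Cvb c_MWLQ_Ypr
theorem c_MWGN_Tlf : Pool.Agent.MWGN.TlfStmt :=
  Pool.Agent.MWGN.H39.tlf 
theorem c_MWLE_Tfw : Pool.Agent.MWLE.TfwStmt :=
  Pool.Agent.MWLE.H45.tfw c_MWGN_Tlf
theorem c_MWGQ_Fsp : Pool.Agent.MWGQ.FspStmt :=
  Pool.Agent.MWGQ.H95.fsp c_MWGQ_Pwx c_MWGN_Tlf
theorem c_MWLQ_Vvd : Pool.Agent.MWLQ.VvdStmt :=
  Pool.Agent.MWLQ.H14.vvd c_MWGQ_Pwx c_MWLQ_Ddc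
theorem c_MWLQ_Clb : Pool.Agent.MWLQ.ClbStmt :=
  Pool.Agent.MWLQ.H49.clb c_MWGQ_Pwx c_MWLE_Tfw c_MWLQ_Ddc c_MWGQ_Fsp c_MWLQ_Vvd
theorem c_MWLE_Tex : Pool.Agent.MWLE.TexStmt :=
  Pool.Agent.MWLE.H13.tex 
theorem c_MWLQ_Fsf : Pool.Agent.MWLQ.FsfStmt :=
  Pool.Agent.MWLQ.H43.fsf c_MWGQ_Pwx c_MWGQ_Fsp c_MWLE_Tex c_MWLQ_Ddc
theorem c_MWLQ_Clc : Pool.Agent.MWLQ.ClcStmt :=
  Pool.Agent.MWLQ.H45.clc c_MWLQ_Kfb c_MWLQ_Gdb c_MWLQ_Gdc c_MWLQ_Gda c_MWLQ_Clb c_MWLQ_Vvd c_MWLQ_Fsf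
theorem c_MWLE_Sig : Pool.Agent.MWLE.SigStmt :=
  Pool.Agent.MWLE.H39.sig 
theorem c_MWLQ_Pen : Pool.Agent.MWLQ.PenStmt :=
  Pool.Agent.MWLQ.H62.pen c_MWLQ_Clc c_MWLE_Sig c_MWLQ_Cpx c_MWLQ_Ler c_MWGQ_Pwx
theorem c_MWLQ_Bts : Pool.Agent.MWLQ.BtsStmt :=
  Pool.Agent.MWLQ.H62B.bts c_MWGQ_Pwx c_MWLE_Tex c_MWLQ_Ddc
theorem c_MWLQ_Ale : Pool.Agent.MWLQ.AleStmt :=
  Pool.Agent.MWLQ.H80.ale c_MWLQ_Pen c_MWLQ_Bts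
theorem c_MWLQ_Aio : Pool.Agent.MWLQ.AioStmt :=
  Pool.Agent.MWLQ.H2.aio c_MWLQ_Bts c_MWGQ_Pwx
theorem c_MWGN_Nof : Pool.Agent.MWGN.NofStmt :=
  Pool.Agent.MWGN.H45.nof c_MWGN_Srt
theorem c_MWGQ_Nrf : Pool.Agent.MWGQ.NrfStmt :=
  Pool.Agent.MWGQ.H45.nrf 
theorem c_MWGQ_Nog : Pool.Agent.MWGQ.NogStmt :=
  Pool.Agent.MWGQ.H2.nog c_MWGQ_Pwx
theorem c_MWGN_Dsr : Pool.Agent.MWGN.DsrStmt :=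
  Pool.Agent.MWGN.H60.dsr 
theorem c_MWGQ_Rnf : Pool.Agent.MWGQ.RnfStmt :=
  Pool.Agent.MWGQ.H43.rnf 
theorem c_MWGQ_Veq : Pool.Agent.MWGQ.VeqStmt :=
  Pool.Agent.MWGQ.H19V.veq c_MWGN_Nof c_MWGQ_Nrf c_MWGQ_Nog c_MWGN_Dsr c_MWGQ_Rnf c_MWGQ_Fsp c_MWGQ_Cnt
theorem c_MWGN_Twt : Pool.Agent.MWGN.TwtStmt :=
  Pool.Agent.MWGN.H66.twt 
theorem c_MWGN_Run : Pool.Agent.MWGN.RunStmt :=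
  Pool.Agent.MWGN.H26.run c_MWGN_Twt
theorem c_MWGQ_Faa : Pool.Agent.MWGQ.FaaStmt :=
  Pool.Agent.MWGQ.H22.faa c_MWGQ_Pwx
theorem c_MWGQ_Fap : Pool.Agent.MWGQ.FapStmt :=
  Pool.Agent.MWGQ.H64.fap c_MWGQ_Pwx
theorem c_MWGQ_Vcf : Pool.Agent.MWGQ.VcfStmt :=
  Pool.Agent.MWGQ.H75C.vcf c_MWGQ_Olr c_MWGQ_Tlr c_MWGQ_Cnt c_MWGQ_Veq c_MWGN_Run c_MWGQ_Faa c_MWGQ_Fap
theorem c_MWGQ_Fof : Pool.Agent.MWGQ.FofStmt :=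
  Pool.Agent.MWGQ.H47.fof 
theorem c_MWGN_Inp : Pool.Agent.MWGN.InpStmt :=
  Pool.Agent.MWGN.H51.inp 
theorem c_MWGN_Inc : Pool.Agent.MWGN.IncStmt :=
  Pool.Agent.MWGN.H27I.inc c_MWGN_Inp
theorem c_MWGN_Kfi : Pool.Agent.MWGN.KfiStmt :=
  Pool.Agent.MWGN.H3.kfi c_MWGN_Inc
theorem c_MWGN_Mpf : Pool.Agent.MWGN.MpfStmt :=
  Pool.Agent.MWGN.H67.mpf c_MWGN_Inp
theorem c_MWGN_Mcf : Pool.Agent.MWGN.McfStmt :=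
  Pool.Agent.MWGN.H46.mcf 
theorem c_MWGN_Ord : Pool.Agent.MWGN.OrdStmt :=
  Pool.Agent.MWGN.H4.ord 
theorem c_MWGN_Sty : Pool.Agent.MWGN.StyStmt :=
  Pool.Agent.MWGN.H77.sty c_MWGN_Kfi c_MWGN_Mpf c_MWGN_Mcf c_MWGN_Ord
theorem c_MWGN_Stx : Pool.Agent.MWGN.StxStmt :=
  Pool.Agent.MWGN.H16.stx c_MWGN_Kfi c_MWGN_Mpf c_MWGN_Mcf c_MWGN_Ord
theorem c_MWGN_Str : Pool.Agent.MWGN.StrStmt :=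
  Pool.Agent.MWGN.H2.str c_MWGN_Kfi c_MWGN_Mpf c_MWGN_Mcf c_MWGN_Ord
theorem c_MWGQ_Clf : Pool.Agent.MWGQ.ClfStmt :=
  Pool.Agent.MWGQ.H19C.clf c_MWGQ_Fof c_MWGN_Inp c_MWGN_Kfi c_MWGN_Sty c_MWGN_Stx c_MWGN_Str
theorem c_MWGN_Prf : Pool.Agent.MWGN.PrfStmt :=
  Pool.Agent.MWGN.H14.prf 
theorem c_MWGQ_Saf : Pool.Agent.MWGQ.SafStmt :=
  Pool.Agent.MWGQ.H88.saf c_MWGN_Prf c_MWGN_Twt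
theorem c_MWGQ_Pef : Pool.Agent.MWGQ.PefStmt :=
  Pool.Agent.MWGQ.H52.pef c_MWGQ_Vcf c_MWGQ_Clf c_MWGQ_Saf
theorem c_MWGQ_Ffr : Pool.Agent.MWGQ.FfrStmt :=
  Pool.Agent.MWGQ.H51.ffr c_MWGQ_Pwx c_MWGQ_Fsp
theorem c_MWGQ_Ita : Pool.Agent.MWGQ.ItaStmt :=
  Pool.Agent.MWGQ.H27.ita c_MWGQ_Pwx
theorem c_MWLQ_Lef : Pool.Agent.MWLQ.LefStmt :=
  Pool.Agent.MWLQ.H76.lef c_MWLQ_Ale c_MWLQ_Aio c_MWGQ_Pef c_MWGQ_Ffr c_MWGQ_Ita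
theorem c_MWLQ_Itd : Pool.Agent.MWLQ.ItdStmt :=
  Pool.Agent.MWLQ.H75.itd c_MWGQ_Pwx
theorem c_MWGQ_Wcv : Pool.Agent.MWGQ.WcvStmt :=
  Pool.Agent.MWGQ.H37.wcv c_MWGQ_Olr c_MWGQ_Tlr c_MWGQ_Cnt
theorem c_MWGN_Noa : Pool.Agent.MWGN.NoaStmt :=
  Pool.Agent.Helper34_MWGN.noa c_MWGN_Srt
theorem c_MWGQ_Nor : Pool.Agent.MWGQ.NorStmt :=
  Pool.Agent.MWGQ.H5.nor 
theorem c_MWGQ_Nob : Pool.Agent.MWGQ.NobStmt :=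
  Pool.Agent.MWGQ.H81.nob c_MWGQ_Pwx
theorem c_MWGQ_Ren : Pool.Agent.MWGQ.RenStmt :=
  Pool.Agent.MWGQ.H89.ren 
theorem c_MWGN_Dst : Pool.Agent.MWGN.DstStmt :=
  Pool.Agent.MWGN.H15.dst 
theorem c_MWGQ_Kar : Pool.Agent.MWGQ.KarStmt :=
  Pool.Agent.MWGQ.H44.kar c_MWGQ_Pwx
theorem c_MWGQ_Kpr : Pool.Agent.MWGQ.KprStmt :=
  Pool.Agent.MWGQ.H19.kpr c_MWGQ_Pwx
theorem c_MWGQ_Spv : Pool.Agent.MWGQ.SpvStmt :=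
  Pool.Agent.MWGQ.H92.spv c_MWGN_Noa c_MWGQ_Nor c_MWGQ_Nob c_MWGQ_Ren c_MWGN_Dst c_MWGQ_Wcv c_MWGQ_Kar c_MWGQ_Kpr
theorem c_MWGQ_Vcl : Pool.Agent.MWGQ.VclStmt :=
  Pool.Agent.MWGQ.H44.vcl c_MWGQ_Wcv c_MWGQ_Spv c_MWGQ_Kar c_MWGQ_Kpr
theorem c_MWGQ_Prb : Pool.Agent.MWGQ.PrbStmt :=
  Pool.Agent.MWGQ.H80.prb 
theorem c_MWGQ_Sa1 : Pool.Agent.MWGQ.Sa1Stmt :=
  Pool.Agent.MWGQ.H32.sa1 c_MWGN_Prf c_MWGQ_Prb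
theorem c_MWGQ_Sa2 : Pool.Agent.MWGQ.Sa2Stmt :=
  Pool.Agent.MWGQ.H1.sa2 c_MWGN_Prf c_MWGQ_Prb
theorem c_MWGQ_For : Pool.Agent.MWGQ.ForStmt :=
  Pool.Agent.MWGQ.H86.for_ 
theorem c_MWGN_Glx : Pool.Agent.MWGN.GlxStmt :=
  Pool.Agent.MWGN.H54.glx 
theorem c_MWGN_Gls : Pool.Agent.MWGN.GlsStmt :=
  Pool.Agent.MWGN.H7.gls 
theorem c_MWGN_Wcx : Pool.Agent.MWGN.WcxStmt :=
  Pool.Agent.MWGN.H94.wcx c_MWGN_Glx c_MWGN_Gls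
theorem c_MWGN_Spx : Pool.Agent.MWGN.SpxStmt :=
  Pool.Agent.MWGN.H59.spx 
theorem c_MWGN_Mpo : Pool.Agent.MWGN.MpoStmt :=
  Pool.Agent.MWGN.H26.mpo 
theorem c_MWGN_Mcv : Pool.Agent.MWGN.McvStmt :=
  Pool.Agent.MWGN.H19.mcv c_MWGN_Mpo
theorem c_MWGQ_Mc1 : Pool.Agent.MWGQ.Mc1Stmt :=
  Pool.Agent.Helper34_MWGQ.mc1 c_MWGQ_For c_MWGN_Mcv
theorem c_MWGN_Hze : Pool.Agent.MWGN.HzeStmt :=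
  Pool.Agent.MWGN.H81.hze c_MWGN_Mpo
theorem c_MWGQ_Mc2 : Pool.Agent.MWGQ.Mc2Stmt :=
  Pool.Agent.MWGQ.H62.mc2 c_MWGQ_For c_MWGN_Mcv c_MWGN_Mpo c_MWGN_Hze
theorem c_MWGQ_Mc3 : Pool.Agent.MWGQ.Mc3Stmt :=
  Pool.Agent.MWGQ.H25.mc3 c_MWGQ_For c_MWGN_Mcv c_MWGN_Mpo c_MWGN_Hze
theorem c_MWGQ_Clo : Pool.Agent.MWGQ.CloStmt :=
  Pool.Agent.MWGQ.H47.clo c_MWGQ_For c_MWGN_Wcx c_MWGN_Spx c_MWGQ_Mc1 c_MWGQ_Mc2 c_MWGQ_Mc3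
theorem c_MWGQ_Dpe : Pool.Agent.MWGQ.DpeStmt :=
  Pool.Agent.MWGQ.H19.dpe c_MWGQ_Vcl c_MWGQ_Sa1 c_MWGQ_Sa2 c_MWGQ_Clo
theorem c_MWGQ_Cmw : Pool.Agent.MWGQ.CmwStmt :=
  Pool.Agent.MWGQ.H69.cmw c_MWGQ_Pwx
theorem c_MWLQ_Nmn : Pool.Agent.MWLQ.NmnStmt :=
  Pool.Agent.MWLQ.H23.nmn c_MWGQ_Gnd c_MWLQ_Lef c_MWLQ_Itd c_MWGQ_Dpe c_MWGQ_Cmw
theorem c_MWGP_Gap : Pool.Agent.MWGP.GapStmt :=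
  Pool.Agent.MWGP.H5.gap 
theorem c_MWLQ_I2r : Pool.Agent.MWLQ.I2rStmt :=
  Pool.Agent.MWLQ.H30.i2r c_MWGP_Gap

end Pool.Agent.MWLQ.Comp
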