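import Pool.Agent.Helper90_MWLQ.Nec
import Pool.Agent.Helper28_MWZ.Gamn
import Pool.Agent.Helper85_GN.Brg

/-!
# Plug: the necessity on the side `xytxy ≈ yxtxy` of the gamma world, all periods

MP_23468a_al.  The named hypotheses `NecMC` (helper28), `NecM` (helper85, helper90) are proved under the
condition `RC`: `x^3yxty ≈ x^2yx^2ty`, which is a consequence for period one.
-/

set_option autoImplicit false

namespace Pool.Agent.MWLQ.H90

open Pool.Agent.Helper14_MV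
open Pool.Agent.Helper2_MV (RR)
open Pool.Agent.MWGQ (Z E0)

/-- `x^3yxty ≈ x^2yx^2ty` -/
def RC (S : List ℕ → List ℕ → Prop) : Prop := S [0, 0, 0, 1, 0, 2, 1] [0, 0, 1, 0, 0, 2, 1]

theorem necMC : MWZ.H28.NecMC (fun _ β => RC (RR β)) := by
  intro n β hn hp hcr hm hga hbe h1 hk h3 hrc
  have hr : MWGP.Rn n (RR β) := h1 (n + 1) (n + 1) (by omega) (by omega)
  obtain ⟨a, b, -, d⟩ := nec_rc n β hm hn hp hcr hga hbe hr h3 hk hrc
  exact ⟨a, b, d⟩

theorem necM85 : Pool.Agent.Helper85_GN.NecM (fun _ β => RC (RR β)) := by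
  intro n β hm hg hrc hr hk h3
  obtain ⟨a, b, -, d⟩ := nec_rc n β hm hg.hg.pos hg.hg.per hg.hg.ncr hg.hg.gam hg.nb hr h3 hk hrc
  exact ⟨a, b, d⟩

end Pool.Agent.MWLQ.H90
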