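import Pool.Agent.Helper90_MWLQ.CompL

/-!
# Necessity in the gamma world outside `x^2y ≈ x^2yx^n`, all periods

MP_23468a_al.  A modular variety with `x^2 ≈ x^(n+2)`, `xyx ≈ xyx^(n+1)`, without
`xyx ≈ x^(n+1)yx^(n+1)` and `x^2y ≈ x^2yx^n`, with `x^(n+1)y^(n+1) ≈ y^(n+1)x^(n+1)` and
`xytxy ≈ yxtxy` satisfies `F`, `I1 n`, `It n`; with `x^3yxty ≈ x^2yx^2ty` also `I2`.  No hypotheses.
-/

namespace Pool.Agent.MWLQ.H90

open Pool.Agent.Helper14_MV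
open Pool.Agent.Helper2_MV (RR)
open Pool.Agent.MWGQ (Z E0)

theorem nmn : NmnStmt := Comp.c_MWLQ_Nmn

theorem lef : LefStmt := Comp.c_MWLQ_Lef

theorem i2r : I2rStmt := Comp.c_MWLQ_I2r

/-- with the crossing of one residue -/
theorem nec_rc (n : ℕ) (β : FIC) (hm : ModF β) (hn : 1 ≤ n) (hp : MWZ.Per n (RR β))
    (hcr : ∀ k : ℕ, 1 ≤ k → ¬ β.r (lx ^ (k + 1)) lx) (hga : MWZ.Ga n (RR β))
    (hnb : ¬ RR β [0, 1, 0] (Z (n + 1) ++ 1 :: Z (n + 1))) (hrn : MWGP.Rn n (RR β))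
    (hk : RR β [0, 1, 2, 0, 1] [1, 0, 2, 0, 1]) (he : ¬ E0 n β)
    (hrc : RR β [0, 0, 0, 1, 0, 2, 1] [0, 0, 1, 0, 0, 2, 1]) :
    MVO.Sys.F (RR β) ∧ MWZ.I1 n (RR β) ∧ MWGQ.It n (RR β) ∧ MWZ.I2 (RR β) := by
  obtain ⟨h1, h2, h3⟩ := nmn n β hm hn hp hcr hga hnb hrn hk he
  exact ⟨h1, h2, h3, i2r n β hn hp hga hrn h3 hrc⟩

/-- period one: `x^3yxty ≈ x^2yx^2ty` is a consequence -/
theorem rc_one (β : FIC) (hp : MWZ.Per 1 (RR β)) (hga : MWZ.Ga 1 (RR β)) :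
    RR β [0, 0, 0, 1, 0, 2, 1] [0, 0, 1, 0, 0, 2, 1] := by
  have h1 : RR β [0, 0, 0, 1, 0, 2, 1] [0, 0, 1, 0, 2, 1] := by
    have h : RR β [0, 0] [0, 0, 0] := hp
    have := (h.append (RR.refl [1, 0, 2, 1])).symm
    simpa using this
  have h2 : RR β [0, 0, 1, 0, 2, 1] [0, 0, 1, 0, 0, 2, 1] := by
    have h : RR β [0, 1, 0] [0, 1, 0, 0] := hga
    have := ((RR.refl (β := β) [0]).append h).append (RR.refl [2, 1])
    simpa using this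
  exact β.trans h1 h2

end Pool.Agent.MWLQ.H90
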